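import Pool.Agent.Y782.WU.Stm

/-!
Project WU (helper782), job EN: the probability of an edge and the Dirichlet energy.
-/

set_option autoImplicit false

open scoped BigOperators

namespace Pool.Agent.Y143.WU

open Pool.Agent.Y782.WU

/-- the linear algebra: the solution of the Poisson equation -/
theorem key {n E : Type} [Fintype n] [DecidableEq n] [DecidableEq E] (D : Finset E)
    (c : E → n → ℝ) (e : E) (he : e ∈ D) (x0 : n) (hc : ∀ v, c e v = if v = x0 then 1 else 0)
    (N Nw : ℝ) (hN : 0 < N)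
    (h1 : Matrix.det (Matrix.of (fun v w : n => ∑ g ∈ D, (1 : ℝ) * c g v * c g w)) = N)
    (h0 : Matrix.det (Matrix.of (fun v w : n =>
      ∑ g ∈ D, (if g = e then (0 : ℝ) else 1) * c g v * c g w)) = N - Nw) :
    ∃ g0 : n → ℝ, g0 x0 = Nw / N ∧ ∀ f : n → ℝ,
      ∑ g ∈ D, (∑ v, c g v * f v) * (∑ v, c g v * g0 v) = f x0 := by
  set L : Matrix n n ℝ := Matrix.of (fun v w : n => ∑ g ∈ D, (1 : ℝ) * c g v * c g w) with hL
  have hu : IsUnit L.det := by rw [h1]; exact hN.ne'.isUnit
  have hL0 : Matrix.of (fun v w : n => ∑ g ∈ D, (if g = e then (0 : ℝ) else 1) * c g v * c g w) =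
      L + Matrix.replicateCol Unit (-(c e)) * Matrix.replicateRow Unit (c e) := by
    ext v w
    rw [Matrix.add_apply, hL, Matrix.of_apply, Matrix.of_apply, Matrix.mul_apply]
    simp only [Finset.univ_unique, Finset.sum_singleton, Matrix.replicateCol_apply,
      Matrix.replicateRow_apply, Pi.neg_apply]
    rw [← Finset.add_sum_erase D _ he, ← Finset.add_sum_erase D (fun g => 1 * c g v * c g w) he]
    have : ∑ g ∈ D.erase e, (if g = e then (0 : ℝ) else 1) * c g v * c g w =
        ∑ g ∈ D.erase e, 1 * c g v * c g w := by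
      refine Finset.sum_congr rfl fun g hg => ?_
      rw [if_neg (Finset.ne_of_mem_erase hg)]
    rw [this, if_pos rfl]
    ring
  rw [hL0, Matrix.det_add_replicateCol_mul_replicateRow hu, h1] at h0
  have hbL : ∀ f : n → ℝ, ∑ v, f v * (L.mulVec (L⁻¹.mulVec (c e))) v = f x0 := by
    intro f
    rw [Matrix.mulVec_mulVec, Matrix.mul_nonsing_inv _ hu, Matrix.one_mulVec]
    simp [hc]
  have hval : (L⁻¹.mulVec (c e)) x0 = Nw / N := by
    have h2 : (1 + Matrix.replicateRow Unit (c e) * L⁻¹ * Matrix.replicateCol Unit (-(c e))).det =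
        1 - (L⁻¹.mulVec (c e)) x0 := by
      rw [Matrix.det_unique, Matrix.add_apply, Matrix.one_apply_eq, Matrix.mul_assoc,
        Matrix.mul_apply]
      simp only [Matrix.replicateRow_apply, Matrix.mul_apply, Matrix.replicateCol_apply,
        Pi.neg_apply, hc]
      simp [Matrix.mulVec, dotProduct, hc]
      ring
    rw [h2] at h0
    field_simp
    linarith
  refine ⟨L⁻¹.mulVec (c e), hval, fun f => ?_⟩
  rw [← hbL f]
  set q := L⁻¹.mulVec (c e) with hq
  simp only [Matrix.mulVec, dotProduct, hL, Matrix.of_apply, one_mul]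
  simp only [Finset.sum_mul_sum]
  rw [Finset.sum_comm]
  refine Finset.sum_congr rfl fun v _ => ?_
  rw [Finset.sum_comm, Finset.mul_sum]
  refine Finset.sum_congr rfl fun w _ => ?_
  rw [Finset.sum_mul, Finset.mul_sum]
  refine Finset.sum_congr rfl fun g _ => ?_
  ring

open Classical in
/-- the difference of a function along an edge, from the incidence vector -/
theorem grad {W E : Type} (M : FG W E) (r : W) {g : E} (hg : g ∈ M.D)
    (f : W → ℝ) (hf : f r = 0) :
    ∑ v : {v // v ∈ M.A.erase r}, inc M g v * f v = f (M.s g) - f (M.t g) := by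
  have h1 : ∀ a ∈ M.A, ∑ v ∈ M.A.erase r, (if a = v then (1 : ℝ) else 0) * f v = f a := by
    intro a ha
    by_cases har : a = r
    · subst har
      rw [hf]
      refine Finset.sum_eq_zero fun v hv => ?_
      rw [if_neg (Finset.ne_of_mem_erase hv).symm, zero_mul]
    · rw [Finset.sum_eq_single a]
      · simp
      · intro v _ hv
        rw [if_neg hv.symm, zero_mul]
      · intro h
        exact absurd (Finset.mem_erase.2 ⟨har, ha⟩) h
  have h2 := Finset.sum_coe_sort (M.A.erase r) (fun v => inc M g v * f v)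
  refine h2.trans ?_
  unfold inc
  simp only [sub_mul, Finset.sum_sub_distrib]
  rw [h1 _ (M.hs g hg), h1 _ (M.ht g hg)]

theorem trunc (a b : ℝ) : (min 1 (max 0 a) - min 1 (max 0 b)) ^ 2 ≤ (a - b) ^ 2 := by
  rw [sq_le_sq]
  refine (abs_min_sub_min_le_max 1 (max 0 a) 1 (max 0 b)).trans ?_
  refine max_le (by simp) ?_
  refine (abs_max_sub_max_le_max 0 a 0 b).trans ?_
  exact max_le (by simp) le_rfl

open Classical in
theorem en (h : S_MT) : S_EN := by
  intro W E M e hN he hne
  have hrA : M.t e ∈ M.A := M.ht e he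
  have hsA : M.s e ∈ M.A.erase (M.t e) := Finset.mem_erase.2 ⟨hne, M.hs e he⟩
  have hN' : (0 : ℝ) < NS M ∅ ∅ tr := by exact_mod_cast hN
  have m1 := h W E M (M.t e) hrA (fun _ => 1)
  have m0 := h W E M (M.t e) hrA (fun g => if g = e then 0 else 1)
  have c1 : ∑ S ∈ M.D.powerset.filter (fun S => IsST M S), ∏ _e ∈ S, (1 : ℝ) = NS M ∅ ∅ tr := by
    unfold NS
    simp [tr]
  have c0 : ∑ S ∈ M.D.powerset.filter (fun S => IsST M S), ∏ g ∈ S, (if g = e then (0 : ℝ) else 1) =
      NS M ∅ ∅ tr - NS M ∅ ∅ (agr {e} {e}) := by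
    have h2 : (NS M ∅ ∅ (agr {e} {e}) : ℝ) =
        ∑ S ∈ M.D.powerset.filter (fun S => IsST M S), (if e ∈ S then (1 : ℝ) else 0) := by
      rw [Finset.sum_boole, Finset.filter_filter]
      unfold NS
      congr 2
      ext S
      simp [agr]
    rw [h2, ← c1, ← Finset.sum_sub_distrib]
    refine Finset.sum_congr rfl fun S _ => ?_
    by_cases heS : e ∈ S
    · rw [Finset.prod_eq_zero heS (by simp)]
      simp [heS]
    · rw [if_neg heS, sub_zero]
      refine Finset.prod_congr rfl fun g hg => ?_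
      rw [if_neg]
      rintro rfl
      exact heS hg
  rw [c1] at m1
  rw [c0] at m0
  obtain ⟨g0, hg0, hg⟩ := key M.D (fun g (v : {v // v ∈ M.A.erase (M.t e)}) => inc M g v) e he
    ⟨M.s e, hsA⟩ (by
      rintro ⟨v, hv⟩
      have h3 : M.t e ≠ v := (Finset.ne_of_mem_erase hv).symm
      show inc M e v = _
      unfold inc
      rw [if_neg h3, sub_zero]
      simp only [Subtype.mk.injEq]
      congr 1
      exact propext eq_comm) _ _ hN' m1 m0
  -- the solution as a function on all vertices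
  let G : W → ℝ := fun v => if hv : v ∈ M.A.erase (M.t e) then g0 ⟨v, hv⟩ else 0
  have hGr : G (M.t e) = 0 := by simp [G]
  have hGv : ∀ v : {v // v ∈ M.A.erase (M.t e)}, G v = g0 v := by
    rintro ⟨v, hv⟩
    simp only [G]
    rw [dif_pos hv]
  have hGs : G (M.s e) = (NS M ∅ ∅ (agr {e} {e}) : ℝ) / NS M ∅ ∅ tr := by
    rw [← hg0, ← hGv ⟨M.s e, hsA⟩]
  set R : ℝ := (NS M ∅ ∅ (agr {e} {e}) : ℝ) / NS M ∅ ∅ tr with hR
  have hpair : ∀ f : W → ℝ, f (M.t e) = 0 →
      ∑ g ∈ M.D, (f (M.s g) - f (M.t g)) * (G (M.s g) - G (M.t g)) = f (M.s e) := by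
    intro f hf
    rw [← hg (fun v => f v)]
    refine Finset.sum_congr rfl fun g hgD => ?_
    rw [← grad M (M.t e) hgD f hf, ← grad M (M.t e) hgD G hGr]
    congr 1
    exact Finset.sum_congr rfl fun v _ => by rw [hGv v]
  have hE : ∑ g ∈ M.D, (G (M.s g) - G (M.t g)) ^ 2 = R := by
    rw [← hGs, ← hpair G hGr]
    exact Finset.sum_congr rfl fun g _ => by ring
  have hi : ∀ f : W → ℝ, f (M.s e) = 1 → f (M.t e) = 0 →
      1 ≤ R * ∑ g ∈ M.D, (f (M.s g) - f (M.t g)) ^ 2 := by
    intro f hf1 hf0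
    have h4 := Finset.sum_mul_sq_le_sq_mul_sq M.D (fun g => f (M.s g) - f (M.t g))
      (fun g => G (M.s g) - G (M.t g))
    rw [hpair f hf0, hE, hf1, one_pow] at h4
    rwa [mul_comm]
  refine ⟨hi, ?_⟩
  have hR0 : 0 ≤ R := by positivity
  have hRpos : 0 < R := by
    rcases hR0.lt_or_eq with h5 | h5
    · exact h5
    · have h6 := hi (fun v => if v = M.s e then 1 else 0) (by simp) (by simp [hne.symm])
      rw [← h5, zero_mul] at h6
      linarith
  refine ⟨fun v => min 1 (max 0 (G v / R)), ?_, ?_, ?_, ?_⟩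
  · show min 1 (max 0 (G (M.s e) / R)) = 1
    rw [hGs, div_self hRpos.ne']
    simp
  · show min 1 (max 0 (G (M.t e) / R)) = 0
    rw [hGr, zero_div]
    simp
  · intro v
    exact ⟨le_min zero_le_one (le_max_left _ _), min_le_left _ _⟩
  · refine le_antisymm ?_ ?_
    · have h7 : ∑ g ∈ M.D, (min 1 (max 0 (G (M.s g) / R)) - min 1 (max 0 (G (M.t g) / R))) ^ 2 ≤
          ∑ g ∈ M.D, (G (M.s g) / R - G (M.t g) / R) ^ 2 :=
        Finset.sum_le_sum fun g _ => trunc _ _
      have h8 : ∑ g ∈ M.D, (G (M.s g) / R - G (M.t g) / R) ^ 2 = R / R ^ 2 := by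
        rw [← hE, Finset.sum_div]
        refine Finset.sum_congr rfl fun g _ => ?_
        rw [hE]
        ring
      rw [h8] at h7
      calc R * ∑ g ∈ M.D, (min 1 (max 0 (G (M.s g) / R)) - min 1 (max 0 (G (M.t g) / R))) ^ 2 ≤
          R * (R / R ^ 2) := mul_le_mul_of_nonneg_left h7 hR0
        _ = 1 := by field_simp
    · refine hi (fun v => min 1 (max 0 (G v / R))) ?_ ?_
      · show min 1 (max 0 (G (M.s e) / R)) = 1
        rw [hGs, div_self hRpos.ne']
        simp
      · show min 1 (max 0 (G (M.t e) / R)) = 0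
        rw [hGr, zero_div]
        simp

end Pool.Agent.Y143.WU
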